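import Mathlib

set_option autoImplicit false

namespace Pool.Agent.H.MP_532027_co

open Polynomial Finset

noncomputable def qi (m : ℕ) : ℚ[X] := ∑ i ∈ range m, X ^ i

noncomputable def qf (m : ℕ) : ℚ[X] := ∏ i ∈ range m, qi (i + 1)

lemma qf_succ (m : ℕ) : qf (m + 1) = qf m * qi (m + 1) := prod_range_succ _ _

lemma qi_add (a b : ℕ) : qi (a + b) = qi a + X ^ a * qi b := by
  unfold qi
  rw [sum_range_add, mul_sum]
  simp only [pow_add]

lemma qi_mul (m : ℕ) : (1 - X) * qi m = 1 - X ^ m := mul_neg_geom_sum X m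

lemma qi_monic (m : ℕ) : (qi (m + 1)).Monic := monic_geom_sum_X (by omega)

lemma qi_deg (m : ℕ) : (qi (m + 1)).natDegree = m := by
  have h := congrArg natDegree (geom_sum_mul (X : ℚ[X]) (m + 1))
  have h1 : ((X : ℚ[X]) - 1).Monic := monic_X_sub_C 1
  have h2 : ((X : ℚ[X]) - 1).natDegree = 1 := natDegree_X_sub_C 1
  have h3 : ((X : ℚ[X]) ^ (m + 1) - 1).natDegree = m + 1 := natDegree_X_pow_sub_C
  change (qi (m + 1) * (X - 1)).natDegree = _ at h
  rw [Monic.natDegree_mul (qi_monic m) h1, h2, h3] at h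
  exact Nat.add_right_cancel h

lemma qf_monic (m : ℕ) : (qf m).Monic := monic_prod_of_monic _ _ fun i _ => qi_monic i

lemma qf_deg (m : ℕ) : 2 * (qf m).natDegree + m = m * m := by
  induction m with
  | zero => simp [qf]
  | succ m ih =>
    rw [qf_succ, Monic.natDegree_mul (qf_monic m) (qi_monic m), qi_deg]
    nlinarith

lemma qi_rev (m : ℕ) : (qi (m + 1)).reverse = qi (m + 1) := by
  ext k
  rw [coeff_reverse, qi_deg]
  simp only [qi, finsetSum_coeff, coeff_X_pow, sum_ite_eq, mem_range]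
  by_cases h : k ≤ m
  · rw [revAt_le h, if_pos (by omega), if_pos (by omega)]
  · rw [revAt_eq_self_of_lt (by omega)]

lemma qf_rev (m : ℕ) : (qf m).reverse = qf m := by
  induction m with
  | zero =>
    simp only [qf, range_zero, prod_empty]
    exact reverse_C 1
  | succ m ih => rw [qf_succ, reverse_mul_of_domain, ih, qi_rev]

lemma gauss : ∀ n a b : ℕ, a + b = n → ∃ G : ℚ[X], qf a * qf b * G = qf n := by
  intro n
  induction n with
  | zero =>
    intro a b h
    obtain ⟨rfl, rfl⟩ : a = 0 ∧ b = 0 := by omega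
    exact ⟨1, by simp [qf]⟩
  | succ n ih =>
    intro a b h
    rcases a with _ | a
    · obtain rfl : b = n + 1 := by omega
      exact ⟨1, by simp [qf]⟩
    rcases b with _ | b
    · obtain rfl : a = n := by omega
      exact ⟨1, by simp [qf]⟩
    obtain ⟨G1, h1⟩ := ih a (b + 1) (by omega)
    obtain ⟨G2, h2⟩ := ih (a + 1) b (by omega)
    refine ⟨G1 + X ^ (a + 1) * G2, ?_⟩
    rw [qf_succ n, ← h, qi_add]
    rw [qf_succ] at h1 h2
    rw [qf_succ a, qf_succ b]
    linear_combination qi (a + 1) * h1 + X ^ (a + 1) * qi (b + 1) * h2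

lemma exists_cat (n : ℕ) : ∃ C : ℚ[X], qi (n + 1) * qf n * qf n * C = qf (2 * n) := by
  rcases n with _ | n
  · exact ⟨1, by simp [qf, qi]⟩
  obtain ⟨G1, h1⟩ := gauss (2 * (n + 1)) (n + 1) (n + 1) (by omega)
  obtain ⟨G2, h2⟩ := gauss (2 * (n + 1)) (n + 1 + 1) n (by omega)
  refine ⟨G1 - X * G2, ?_⟩
  have e : qi (n + 1 + 1) = 1 + X * qi (n + 1) := by
    rw [add_comm (n + 1) 1, qi_add]
    simp [qi]
  rw [qf_succ (n + 1)] at h2
  have h3 := qf_succ n
  linear_combination qi (n + 1 + 1) * h1 - X * qi (n + 1) * h2 + qf (2 * (n + 1)) * e -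
    X * G2 * qi (n + 1 + 1) * qf (n + 1) * h3

lemma cat_symm (n : ℕ) (C : ℚ[X]) (h : qi (n + 1) * qf n * qf n * C = qf (2 * n)) (j k : ℕ)
    (hjk : j + k + n = n * n) : C.coeff j = C.coeff k := by
  have hm : (qi (n + 1) * qf n * qf n).Monic := ((qi_monic n).mul (qf_monic n)).mul (qf_monic n)
  have hC : C ≠ 0 := by
    rintro rfl
    rw [mul_zero] at h
    exact (qf_monic _).ne_zero h.symm
  have h1 := congrArg natDegree h
  rw [natDegree_mul hm.ne_zero hC, Monic.natDegree_mul ((qi_monic n).mul (qf_monic n)) (qf_monic n),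
    Monic.natDegree_mul (qi_monic n) (qf_monic n), qi_deg] at h1
  have h2 := qf_deg n
  have h3 := qf_deg (2 * n)
  have h4 : C.natDegree = j + k := by nlinarith
  have h5 := congrArg reverse h
  rw [reverse_mul_of_domain, reverse_mul_of_domain, reverse_mul_of_domain, qi_rev, qf_rev, qf_rev,
    ← h] at h5
  have h6 : C.reverse = C := mul_left_cancel₀ hm.ne_zero h5
  conv_lhs => rw [← h6]
  rw [coeff_reverse, h4, revAt_le (by omega), Nat.add_sub_cancel_left]

noncomputable def E (m : ℕ) : ℚ[X] := ∏ i ∈ range m, (1 - X ^ (i + 1))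

lemma E_eq (m : ℕ) : (1 - X) ^ m * qf m = E m := by
  induction m with
  | zero => simp [qf, E]
  | succ m ih =>
    rw [qf_succ, E, prod_range_succ, ← E, ← ih, ← qi_mul]
    ring

lemma E_cong (N m : ℕ) (h : N ≤ m) : (X : ℚ[X]) ^ (N + 1) ∣ E m - E N := by
  induction m, h using Nat.le_induction with
  | base => simp
  | succ m hm ih =>
    have : E (m + 1) - E N = (E m - E N) - X ^ (m + 1) * E m := by
      rw [E, prod_range_succ, ← E]
      ring
    rw [this]
    exact dvd_sub ih ((pow_dvd_pow X (by omega)).mul_right _)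

def al : List ℤ := [1, 0, 1, 1, 2, 2, 4, 4, 7, 8, 12, 14, 21, 24, 34, 41, 55, 66, 88, 105, 137, 165, 210, 253, 320, 383, 478, 574, 708, 847, 1039, 1238, 1507, 1794, 2167, 2573, 3094, 3660, 4378, 5170, 6153, 7245, 8591, 10087, 11914, 13959, 16424, 19196, 22519, 26252, 30701, 35717, 41646, 48342, 56224, 65121, 75547, 87331, 101066, 116600, 134647, 155038, 178651, 205343, 236131, 270928, 310962, 356169, 408046, 466610, 533623, 609237, 695578, 792906, 903811, 1028764, 1170827]

def step (L : List ℤ) (i : ℕ) : List ℤ := List.zipWith (· - ·) L (List.replicate i 0 ++ L)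

def run : ℕ → List ℤ
  | 0 => al
  | m + 1 => step (run m) (m + 1)

lemma run_len (m : ℕ) : (run m).length = 77 := by
  induction m with
  | zero => rfl
  | succ m ih => simp [run, step, ih]

noncomputable def pa : ℚ[X] := ∑ k ∈ range 77, monomial k ((al.getD k 0 : ℤ) : ℚ)

lemma pa_coeff (k : ℕ) (hk : k < 77) : pa.coeff k = ((al.getD k 0 : ℤ) : ℚ) := by
  simp only [pa, finsetSum_coeff, coeff_monomial, sum_ite_eq', mem_range, if_pos hk]

lemma run_coeff (m : ℕ) : ∀ k < 77, (E m * pa).coeff k = (((run m).getD k 0 : ℤ) : ℚ) := by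
  induction m with
  | zero =>
    intro k hk
    simp only [E, range_zero, prod_empty, one_mul, run]
    exact pa_coeff k hk
  | succ m ih =>
    intro k hk
    have e : E (m + 1) * pa = E m * pa - X ^ (m + 1) * (E m * pa) := by
      rw [E, prod_range_succ, ← E]
      ring
    rw [e, coeff_sub, coeff_X_pow_mul', ih k hk]
    have hl := run_len m
    have h1 : (run (m + 1)).getD k 0 =
        (run m).getD k 0 - (List.replicate (m + 1) (0 : ℤ) ++ run m).getD k 0 := by
      have a1 : k < (run m).length := by omega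
      have a2 : k < (List.replicate (m + 1) (0 : ℤ) ++ run m).length := by simp; omega
      simp only [run, step, List.getD_eq_getElem?_getD, List.getElem?_zipWith,
        List.getElem?_eq_getElem a1, List.getElem?_eq_getElem a2, Option.getD_some]
    rw [h1]
    split_ifs with h
    · rw [ih _ (by omega), List.getD_append_right _ _ _ _ (by simpa using h)]
      simp
    · rw [List.getD_append _ _ _ _ (by simp; omega), List.getD_replicate _ (by omega)]
      simp

lemma run_final : run 76 = 1 :: -1 :: List.replicate 75 0 := by decide +kernel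

lemma pa_cong : (X : ℚ[X]) ^ 77 ∣ E 76 * pa - (1 - X) := by
  rw [X_pow_dvd_iff]
  intro k hk
  rw [coeff_sub, run_coeff 76 k hk, run_final, coeff_sub, coeff_one, coeff_X]
  rcases k with _ | _ | k
  · simp
  · simp
  · rw [List.getD_cons_succ, List.getD_cons_succ, List.getD_replicate _ (by omega)]
    simp

lemma E_cop (m : ℕ) : IsCoprime ((X : ℚ[X]) ^ 77) (E m) := by
  refine IsCoprime.pow_left (IsCoprime.prod_right fun i _ => ⟨X ^ i, 1, by ring⟩)

lemma cat_coeff (n : ℕ) (hn : 76 ≤ n) (C : ℚ[X]) (h : qi (n + 1) * qf n * qf n * C = qf (2 * n))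
    (k : ℕ) (hk : k < 77) : C.coeff k = ((al.getD k 0 : ℤ) : ℚ) := by
  have h1 : (1 - X ^ (n + 1)) * E n * E n * C = (1 - X) * E (2 * n) := by
    rw [← E_eq, ← E_eq, ← qi_mul, ← h]
    ring
  obtain ⟨u, hu⟩ := E_cong 76 n hn
  obtain ⟨v, hv⟩ := E_cong 76 (2 * n) (by omega)
  obtain ⟨w, hw⟩ := pa_cong
  obtain ⟨j, rfl⟩ := Nat.exists_eq_add_of_le hn
  have h2 : (X : ℚ[X]) ^ 77 ∣ E (76 + j) * (E (76 + j) * (C - pa)) := by
    refine ⟨X ^ j * E (76 + j) * E (76 + j) * C + (1 - X) * (v - u) - E (76 + j) * (u * pa + w), ?_⟩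
    linear_combination h1 + (1 - X) * hv - (1 - X) * hu - E (76 + j) * pa * hu - E (76 + j) * hw
  have h3 := (E_cop _).dvd_of_dvd_mul_left ((E_cop _).dvd_of_dvd_mul_left h2)
  have h4 := X_pow_dvd_iff.mp h3 k hk
  rw [coeff_sub, sub_eq_zero] at h4
  rw [h4, pa_coeff k hk]

end Pool.Agent.H.MP_532027_co
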